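import Pool.Agent.Helper14.W3.StA

/-!
# Project W3, MODULE Final: assembly of the theorem from the core
-/

set_option autoImplicit false

open UpperHalfPlane CongruenceSubgroup
open scoped MatrixGroups

namespace Pool.Agent.Helper71.W3

open Pool.Agent.Helper14.CV Pool.Agent.Helper14.W3

/-- The even part of a potential. -/
private def Gp (G : ℤ → ℤ → ℂ) : ℤ → ℤ → ℂ := fun p q => G p q + G (-p) q

private lemma neg_or {p q : ℤ} (hpq : p ≠ 0 ∨ q ≠ 0) : (-p ≠ 0 ∨ q ≠ 0) := by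
  rcases hpq with h0 | h0
  · exact Or.inl (neg_ne_zero.mpr h0)
  · exact Or.inr h0

private lemma homog_Gp {G : ℤ → ℤ → ℂ} (h : Homog G) : Homog (Gp G) := by
  intro k p q hk hpq
  have h1 := h k p q hk hpq
  have h2 := h k (-p) q hk (neg_or hpq)
  have e : -(k * p) = k * (-p) := by ring
  simp only [Gp]
  rw [h1, e, h2]

private lemma sym_Gp {n : ℕ} {G : ℤ → ℤ → ℂ} (h : Sym3 0 n G) : Sym3 0 n (Gp G) := by
  refine ⟨homog_Gp h.1, ?_⟩
  intro a b c d hdet hb hc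
  obtain ⟨c1, h1⟩ := h.2 a b c d hdet hb hc
  obtain ⟨c2, h2⟩ := h.2 a (-b) (-c) d (by linarith [hdet, (by ring : a * d - -b * -c = a * d - b * c)])
    (by simp) ((dvd_neg).mpr hc)
  refine ⟨c1 + c2, ?_⟩
  intro p q hpq
  have e1 := h1 p q hpq
  have e2 := h2 (-p) q (neg_or hpq)
  simp only [act, Gp] at e1 e2 ⊢
  have e3 : a * -p + -b * q = -(a * p + b * q) := by ring
  have e4 : -c * -p + d * q = c * p + d * q := by ring
  rw [e3, e4] at e2
  rw [e1, e2]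
  ring

/-- exact invariance under the translation by one -/
private lemma trans_one {n : ℕ} {G : ℤ → ℤ → ℂ} (h : Sym3 0 n G) (p q : ℤ)
    (hpq : p ≠ 0 ∨ q ≠ 0) : G (p + q) q = G p q := by
  obtain ⟨c, hc⟩ := h.2 1 1 0 1 (by norm_num) (by simp) (by simp)
  have e0 := hc 1 0 (Or.inl one_ne_zero)
  have e1 := hc p q hpq
  simp only [act, one_mul, mul_zero, add_zero, zero_mul, zero_add, mul_one] at e0 e1
  have hc0 : c = 0 := by
    have : G 1 0 = G 1 0 + c := e0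
    exact left_eq_add.mp this
  rw [e1, hc0, add_zero]

private lemma third_Gp {n : ℕ} {G : ℤ → ℤ → ℂ} (h : Sym3 0 n G)
    (h5 : EqC (G + act 3 1 0 3 G + act 3 2 0 3 G) 0) :
    EqC (Gp G + act 3 1 0 3 (Gp G) + act 3 2 0 3 (Gp G)) 0 := by
  obtain ⟨c, hc⟩ := h5
  refine ⟨c + c, ?_⟩
  intro p q hpq
  have e1 := hc p q hpq
  have e2 := hc (-p) q (neg_or hpq)
  have ne (r : ℤ) : (-(3 * p + r * q) ≠ 0 ∨ 3 * q ≠ 0) := by
    by_cases hq : q = 0
    · left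
      rcases hpq with h0 | h0
      · rw [hq, mul_zero, add_zero]
        exact neg_ne_zero.mpr (mul_ne_zero three_ne_zero h0)
      · exact absurd hq h0
    · exact Or.inr (mul_ne_zero three_ne_zero hq)
  have e3 := trans_one h (-(3 * p + 1 * q)) (3 * q) (ne 1)
  have e4 := trans_one h (-(3 * p + 2 * q)) (3 * q) (ne 2)
  simp only [act, Gp, Pi.add_apply, Pi.zero_apply] at e1 e2 ⊢
  have f1 : -(3 * p + 1 * q) + 3 * q = 3 * -p + 2 * q := by ring
  have f2 : -(3 * p + 2 * q) + 3 * q = 3 * -p + 1 * q := by ring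
  have f3 : 0 * p + 3 * q = 3 * q := by ring
  have f4 : 0 * -p + 3 * q = 3 * q := by ring
  rw [f1] at e3
  rw [f2] at e4
  rw [f3] at e1 ⊢
  rw [f4] at e2
  rw [← e3, ← e4]
  linear_combination e1 + e2

private lemma fricke_Gp {n : ℕ} {G : ℤ → ℤ → ℂ} (h : Homog G)
    (h4 : EqC (act 0 (-1) (3 ^ n) 0 G) (-G)) :
    EqC (act 0 (-1) (3 ^ n) 0 (Gp G)) (-(Gp G)) := by
  obtain ⟨c, hc⟩ := h4
  refine ⟨c + c, ?_⟩
  intro p q hpq
  have e1 := hc p q hpq
  have e2 := hc (-p) q (neg_or hpq)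
  simp only [act, Gp, Pi.neg_apply] at e1 e2 ⊢
  have hN : (3 : ℤ) ^ n ≠ 0 := by positivity
  have hne : (-(0 * p + -1 * q) ≠ 0 ∨ 3 ^ n * p + 0 * q ≠ 0) := by
    rcases hpq with h0 | h0
    · right
      rw [zero_mul, add_zero]
      exact mul_ne_zero hN h0
    · left
      have : -(0 * p + -1 * q) = q := by ring
      rw [this]
      exact h0
  have e3 := h (-1) (-(0 * p + -1 * q)) (3 ^ n * p + 0 * q) (by norm_num) hne
  have e4 : (-1 : ℤ) * (-(0 * p + -1 * q)) = 0 * -p + -1 * q := by ring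
  have e5 : (-1 : ℤ) * (3 ^ n * p + 0 * q) = 3 ^ n * -p + 0 * q := by ring
  rw [e4, e5] at e3
  rw [← e3, e1, e2]
  ring

/-- the relation for the unipotent matrices with lower left entries `3^(n-1)`, `2 * 3^(n-1)` -/
private lemma sigma_G {n : ℕ} (hn : 1 ≤ n) {G : ℤ → ℤ → ℂ} (h : Homog G)
    (h5 : EqC (G + act 3 1 0 3 G + act 3 2 0 3 G) 0) (h4 : EqC (act 0 (-1) (3 ^ n) 0 G) (-G)) :
    ∃ k : ℂ, ∀ p q : ℤ, (p ≠ 0 ∨ q ≠ 0) →
      G p q + G p (q - 3 ^ (n - 1) * p) + G p (q - 2 * 3 ^ (n - 1) * p) = k := by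
  obtain ⟨c, hc⟩ := h5
  obtain ⟨w, hw⟩ := h4
  refine ⟨3 * w - c, ?_⟩
  intro p q hpq
  have hM : (3 : ℤ) ^ n = 3 * 3 ^ (n - 1) := by
    obtain ⟨m, rfl⟩ : ∃ m, n = m + 1 := ⟨n - 1, by omega⟩
    rw [Nat.add_sub_cancel, pow_succ]
    ring
  have hM0 : (3 : ℤ) ^ (n - 1) ≠ 0 := by positivity
  rw [hM] at hw
  generalize (3 : ℤ) ^ (n - 1) = M at hM hM0 hw ⊢
  have n1 (r : ℤ) : (p ≠ 0 ∨ q - r * M * p ≠ 0) := by
    by_cases hp : p = 0
    · right
      rcases hpq with h0 | h0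
      · exact absurd hp h0
      · rw [hp, mul_zero, sub_zero]
        exact h0
    · exact Or.inl hp
  have n2 (r : ℤ) : (-(q - r * M * p) ≠ 0 ∨ 3 * M * p ≠ 0) := by
    rcases n1 r with h0 | h0
    · exact Or.inr (mul_ne_zero (mul_ne_zero three_ne_zero hM0) h0)
    · exact Or.inl (neg_ne_zero.mpr h0)
  have n3 : (-q ≠ 0 ∨ 3 * M * p ≠ 0) := by
    rcases hpq with h0 | h0
    · exact Or.inr (mul_ne_zero (mul_ne_zero three_ne_zero hM0) h0)
    · exact Or.inl (neg_ne_zero.mpr h0)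
  have e0 := hc (-q) (3 * M * p) n3
  have e1 := hw p q hpq
  have e2 := hw p (q - 1 * M * p) (n1 1)
  have e3 := hw p (q - 2 * M * p) (n1 2)
  have e4 := h 3 (-(q - 1 * M * p)) (3 * M * p) three_ne_zero (n2 1)
  have e5 := h 3 (-(q - 2 * M * p)) (3 * M * p) three_ne_zero (n2 2)
  simp only [act, Pi.neg_apply, Pi.add_apply, Pi.zero_apply] at e0 e1 e2 e3
  have f1 : 0 * p + -1 * q = -q := by ring
  have f2 : 3 * M * p + 0 * q = 3 * M * p := by ring
  rw [f1, f2] at e1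
  have f3 : 0 * p + -1 * (q - 1 * M * p) = -(q - 1 * M * p) := by ring
  have f4 : 3 * M * p + 0 * (q - 1 * M * p) = 3 * M * p := by ring
  rw [f3, f4] at e2
  have f5 : 0 * p + -1 * (q - 2 * M * p) = -(q - 2 * M * p) := by ring
  have f6 : 3 * M * p + 0 * (q - 2 * M * p) = 3 * M * p := by ring
  rw [f5, f6] at e3
  have g1 : 3 * -q + 1 * (3 * M * p) = 3 * -(q - 1 * M * p) := by ring
  have g2 : 3 * -q + 2 * (3 * M * p) = 3 * -(q - 2 * M * p) := by ring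
  have g3 : 0 * -q + 3 * (3 * M * p) = 3 * (3 * M * p) := by ring
  rw [g1, g2, g3, e4, e5, e1, e2, e3] at e0
  have g4 : q - M * p = q - 1 * M * p := by ring
  rw [g4]
  linear_combination -e0

private lemma sigma_Gp {n : ℕ} (hn : 1 ≤ n) {G : ℤ → ℤ → ℂ} (h : Homog G)
    (h5 : EqC (G + act 3 1 0 3 G + act 3 2 0 3 G) 0) (h4 : EqC (act 0 (-1) (3 ^ n) 0 G) (-G)) :
    EqC (Gp G + act 1 0 (3 ^ (n - 1)) 1 (Gp G) + act 1 0 (2 * 3 ^ (n - 1)) 1 (Gp G)) 0 := by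
  obtain ⟨k, hk⟩ := sigma_G hn h h5 h4
  refine ⟨k + k, ?_⟩
  intro p q hpq
  generalize (3 : ℤ) ^ (n - 1) = M at hk ⊢
  simp only [act, Gp, Pi.add_apply, Pi.zero_apply]
  have n1 : (p ≠ 0 ∨ q + 2 * M * p ≠ 0) := by
    by_cases hp : p = 0
    · right
      rcases hpq with h0 | h0
      · exact absurd hp h0
      · rw [hp, mul_zero, add_zero]
        exact h0
    · exact Or.inl hp
  have e1 := hk p (q + 2 * M * p) n1
  have e2 := hk (-p) q (neg_or hpq)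
  have f1 : q + 2 * M * p - M * p = M * p + 1 * q := by ring
  have f2 : q + 2 * M * p - 2 * M * p = q := by ring
  have f3 : q + 2 * M * p = 2 * M * p + 1 * q := by ring
  have f4 : q - M * -p = M * p + 1 * q := by ring
  have f5 : q - 2 * M * -p = 2 * M * p + 1 * q := by ring
  have f6 : 1 * p + 0 * q = p := by ring
  rw [f1, f2, f3] at e1
  rw [f4, f5] at e2
  rw [f6]
  linear_combination e1 + e2

private lemma Tl_Gp {n : ℕ} {G : ℤ → ℤ → ℂ} (h : Sym3 0 n G) (l : ℕ) (hl : 0 < l) (lam : ℂ)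
    (hT : ∀ p q : ℤ, (p ≠ 0 ∨ q ≠ 0) → Tl l 1 G p q = lam * G p q) :
    ∀ p q : ℤ, (p ≠ 0 ∨ q ≠ 0) → Tl l 1 (Gp G) p q = lam * Gp G p q := by
  intro p q hpq
  have e1 := hT p q hpq
  have e2 := hT (-p) q (neg_or hpq)
  have hsum : ∑ j ∈ Finset.range l, G (-(p + 1 * (j : ℤ) * q)) ((l : ℤ) * q) =
      ∑ j ∈ Finset.range l, G (-p + 1 * (j : ℤ) * q) ((l : ℤ) * q) := by
    by_cases hq : q = 0
    · subst hq
      simp
    · have hlq : (l : ℤ) * q ≠ 0 := mul_ne_zero (by exact_mod_cast hl.ne') hq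
      set F : ℕ → ℂ := fun i => G (-p + (i : ℤ) * q) ((l : ℤ) * q) with hF
      have hL : ∀ j ∈ Finset.range l, G (-(p + 1 * (j : ℤ) * q)) ((l : ℤ) * q) = F (l - j) := by
        intro j hj
        have hjl : j ≤ l := (Finset.mem_range.mp hj).le
        have t := trans_one h (-(p + 1 * (j : ℤ) * q)) ((l : ℤ) * q) (Or.inr hlq)
        rw [← t, hF]
        simp only
        congr 1
        rw [Nat.cast_sub hjl]
        ring
      rw [Finset.sum_congr rfl hL]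
      have hR : ∀ j ∈ Finset.range l, G (-p + 1 * (j : ℤ) * q) ((l : ℤ) * q) = F j := by
        intro j _
        rw [hF]
        simp only [one_mul]
      rw [Finset.sum_congr rfl hR]
      have hend : F l = F 0 := by
        rw [hF]
        simp only
        have t := trans_one h (-p) ((l : ℤ) * q) (Or.inr hlq)
        rw [t]
        simp
      have hr : ∑ j ∈ Finset.range l, F (l - j) = ∑ j ∈ Finset.range l, F (j + 1) := by
        rw [← Finset.sum_range_reflect]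
        refine Finset.sum_congr rfl ?_
        intro j hj
        have hj' := Finset.mem_range.mp hj
        congr 1
        omega
      rw [hr]
      have h1 := Finset.sum_range_succ F l
      have h2 := Finset.sum_range_succ' F l
      rw [h1, hend] at h2
      exact (add_right_cancel h2).symm
  simp only [Tl, Gp] at e1 e2 ⊢
  rw [Finset.sum_add_distrib, hsum]
  have e3 : -((l : ℤ) * p) = (l : ℤ) * -p := by ring
  rw [e3]
  linear_combination e1 + e2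

private lemma Tl_congr {H K : ℤ → ℤ → ℂ} (l : ℕ) (hl : 0 < l)
    (h : ∀ p q : ℤ, (p ≠ 0 ∨ q ≠ 0) → H p q = K p q) :
    ∀ p q : ℤ, (p ≠ 0 ∨ q ≠ 0) → Tl l 1 H p q = Tl l 1 K p q := by
  intro p q hpq
  have hl0 : (l : ℤ) ≠ 0 := by exact_mod_cast hl.ne'
  simp only [Tl]
  have n1 : ((l : ℤ) * p ≠ 0 ∨ q ≠ 0) := by
    rcases hpq with h0 | h0
    · exact Or.inl (mul_ne_zero hl0 h0)
    · exact Or.inr h0
  rw [h _ _ n1]
  congr 1
  refine Finset.sum_congr rfl ?_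
  intro j _
  apply h
  by_cases hq : q = 0
  · left
    rcases hpq with h0 | h0
    · rw [hq, mul_zero, add_zero]
      exact h0
    · exact absurd hq h0
  · exact Or.inr (mul_ne_zero hl0 hq)

private lemma Tl_smul {H : ℤ → ℤ → ℂ} (l : ℕ) (c : ℂ) (p q : ℤ) :
    Tl l 1 (fun p q => c * H p q) p q = c * Tl l 1 H p q := by
  simp only [Tl]
  rw [mul_add, Finset.mul_sum]

private lemma Tl_step {K : ℤ → ℤ → ℂ} (l : ℕ) (hl : 0 < l) (lam : ℂ)
    (hT : ∀ p q : ℤ, (p ≠ 0 ∨ q ≠ 0) → Tl l 1 K p q = lam * K p q) (c : ℂ)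
    {H : ℤ → ℤ → ℂ} (hH : ∀ p q : ℤ, (p ≠ 0 ∨ q ≠ 0) → H p q = c * K p q) :
    ∀ p q : ℤ, (p ≠ 0 ∨ q ≠ 0) → Tl l 1 H p q = lam * c * K p q := by
  intro p q hpq
  have e1 := Tl_congr l hl (H := H) (K := fun p q => c * K p q) hH p q hpq
  rw [e1, Tl_smul, hT p q hpq]
  ring

private lemma Tl_iter {K : ℤ → ℤ → ℂ} (l : ℕ) (hl : 0 < l) (lam : ℂ)
    (hT : ∀ p q : ℤ, (p ≠ 0 ∨ q ≠ 0) → Tl l 1 K p q = lam * K p q) (c : ℂ)
    {H : ℤ → ℤ → ℂ} (hH : ∀ p q : ℤ, (p ≠ 0 ∨ q ≠ 0) → H p q = c * K p q) (i : ℕ) :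
    ∀ p q : ℤ, (p ≠ 0 ∨ q ≠ 0) → ((Tl l 1)^[i] H) p q = lam ^ i * c * K p q := by
  induction i with
  | zero =>
    intro p q hpq
    simp only [Function.iterate_zero, id_eq, pow_zero, one_mul]
    exact hH p q hpq
  | succ i ih =>
    intro p q hpq
    rw [Function.iterate_succ_apply']
    have e1 := Tl_step l hl lam hT (lam ^ i * c) ih p q hpq
    rw [e1, pow_succ]
    ring

private lemma Bo_step {K : ℤ → ℤ → ℂ} (a b : ℂ)
    (t2 : ∀ p q : ℤ, (p ≠ 0 ∨ q ≠ 0) → Tl 2 1 K p q = a * K p q)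
    (t7 : ∀ p q : ℤ, (p ≠ 0 ∨ q ≠ 0) → Tl 7 1 K p q = b * K p q) (c : ℂ)
    {H : ℤ → ℤ → ℂ} (hH : ∀ p q : ℤ, (p ≠ 0 ∨ q ≠ 0) → H p q = c * K p q) :
    ∀ p q : ℤ, (p ≠ 0 ∨ q ≠ 0) → Bo 1 H p q = (b + 1 - a ^ 2) * c * K p q := by
  intro p q hpq
  have e1 := Tl_step 7 (by norm_num) b t7 c hH p q hpq
  have e2 := Tl_step 2 (by norm_num) a t2 (a * c)
    (Tl_step 2 (by norm_num) a t2 c hH) p q hpq
  simp only [Bo, Pi.add_apply, Pi.sub_apply]
  rw [e1, e2, hH p q hpq]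
  ring

private lemma Bo_iter {K : ℤ → ℤ → ℂ} (a b : ℂ)
    (t2 : ∀ p q : ℤ, (p ≠ 0 ∨ q ≠ 0) → Tl 2 1 K p q = a * K p q)
    (t7 : ∀ p q : ℤ, (p ≠ 0 ∨ q ≠ 0) → Tl 7 1 K p q = b * K p q) (c : ℂ)
    {H : ℤ → ℤ → ℂ} (hH : ∀ p q : ℤ, (p ≠ 0 ∨ q ≠ 0) → H p q = c * K p q) (j : ℕ) :
    ∀ p q : ℤ, (p ≠ 0 ∨ q ≠ 0) →
      ((Bo 1)^[j] H) p q = (b + 1 - a ^ 2) ^ j * c * K p q := by
  induction j with
  | zero =>
    intro p q hpq
    simp only [Function.iterate_zero, id_eq, pow_zero, one_mul]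
    exact hH p q hpq
  | succ j ih =>
    intro p q hpq
    rw [Function.iterate_succ_apply']
    have e1 := Bo_step a b t2 t7 ((b + 1 - a ^ 2) ^ j * c) ih p q hpq
    rw [e1, pow_succ]
    ring

private lemma fc_zero {N : ℕ} (m : ℕ) : fc (0 : CuspForm (G0 N) 2) m = 0 := by
  unfold fc
  rw [FunLike.coe_zero]
  simp [UpperHalfPlane.qExpansion_zero]

theorem hFinal (_h1 : StA1) (h4 : StA4) (h5 : StA5) (h6 : StA6) (h8 : StA8) (hN4 : S3N4)
    (hP1 : StP1) (hP2 : S3P2) (hP3 : StP3) (hP4 : S3P4) (hP5 : S3P5) (hCore : S3Core) :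
    S3Final := by
  intro n f hn hf hR hL
  obtain ⟨G, hG, _⟩ := h4 (3 ^ n) inferInstance f
  have hHom : Homog G := hP1 (3 ^ n) inferInstance f G hG
  have hSym : Sym3 0 n G := hP2 n f G hG
  have hW : EqC (act 0 (-1) (3 ^ n) 0 G) (-G) :=
    hP4 n f G hG (h8 (3 ^ n) inferInstance f hR)
  have hT : EqC (G + act 3 1 0 3 G + act 3 2 0 3 G) 0 :=
    hP5 (3 ^ n) inferInstance f G hG (hN4 n f (by omega) hf hR)
  have h01 : G 0 1 = G 1 0 := h5 (3 ^ n) inferInstance f G hG hL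
  have t2 := Tl_Gp hSym 2 (by norm_num) (fc f 2)
    (hP3 (3 ^ n) inferInstance f G 2 (fc f 2) hG (by norm_num)
      (hf.hecke 2 Nat.prime_two (by norm_num)))
  have t7 := Tl_Gp hSym 7 (by norm_num) (fc f 7)
    (hP3 (3 ^ n) inferInstance f G 7 (fc f 7) hG (by norm_num)
      (hf.hecke 7 (by norm_num) (by norm_num)))
  have hNew : NewSym3 n (Gp G) := by
    refine ⟨sym_Gp hSym, third_Gp hSym hT, sigma_Gp (by omega) hHom hT hW, fricke_Gp hHom hW, 0, ?_⟩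
    intro p q _
    simp only [act, Gp]
    have f1 : -1 * p + 0 * q = -p := by ring
    have f2 : 0 * p + 1 * q = q := by ring
    rw [f1, f2, neg_neg]
    ring
  have hG10 : G (-1) 0 = G 1 0 := by
    have := hHom (-1) 1 0 (by norm_num) (Or.inl one_ne_zero)
    simpa using this
  have hev : ∀ i j : ℕ, ev3 1 (Gp G) i j = 0 := by
    intro i j
    have s2 := Tl_iter 2 (by norm_num) (fc f 2) t2 1 (H := Gp G) (fun p q _ => (one_mul _).symm) i
    have s7 := Bo_iter (fc f 2) (fc f 7) t2 t7 (fc f 2 ^ i * 1)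
      (H := (Tl 2 1)^[i] (Gp G)) s2 j
    unfold ev3
    rw [s7 1 0 (Or.inl one_ne_zero), s7 0 1 (Or.inr one_ne_zero)]
    simp only [Gp, neg_zero]
    rw [hG10, h01]
    ring
  obtain ⟨c, hc⟩ := hCore n (Gp G) hn hNew hev
  have hf0 : f = 0 := by
    refine h6 (3 ^ n) inferInstance f G c hG ?_
    intro p q hpq
    have := hc p q hpq
    simpa [Gp] using this
  have := hf.normalised
  rw [hf0, fc_zero] at this
  exact zero_ne_one this

end Pool.Agent.Helper71.W3
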